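import Pool.Agent.BLP.StmtsA

/-!
# Squad BLP, row A_CRO
-/

namespace Pool.Agent.BLP.H8

/-- CRO -/
theorem a_cro : CroStmt := by
  intro m n τ σ hmn hτ hσ hm hn
  classical
  have hex : ∃ j : ℕ, σ (m + j) ≤ τ (m + j) := by
    refine ⟨(n - m).toNat, ?_⟩
    have : m + ((n - m).toNat : ℤ) = n := by
      rw [Int.toNat_of_nonneg (by omega)]
      ring
    rw [this]
    exact hn
  set j := Nat.find hex with hj
  have hspec : σ (m + j) ≤ τ (m + j) := Nat.find_spec hex
  have hle : (j : ℤ) ≤ n - m := by
    have h1 : j ≤ (n - m).toNat := by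
      apply Nat.find_min'
      have : m + ((n - m).toNat : ℤ) = n := by
        rw [Int.toNat_of_nonneg (by omega)]
        ring
      rw [this]
      exact hn
    omega
  have hprev : τ (m + j - 1) ≤ σ (m + j - 1) := by
    rcases Nat.eq_zero_or_pos j with h0 | h0
    · rw [h0]
      simpa using hm
    · have hlt : j - 1 < Nat.find hex := by omega
      have h2 := Nat.find_min hex hlt
      have h3 : (m + ((j - 1 : ℕ) : ℤ)) = m + j - 1 := by
        push_cast [Nat.cast_sub h0]
        ring
      rw [h3] at h2
      exact (not_le.1 h2).le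
  refine ⟨m + j, σ (m + j - 1), by omega, by omega, hprev, ?_, le_refl _, ?_⟩
  · have h4 := hσ (m + j) (by omega) (by omega)
    exact h4.trans hspec
  · exact hσ (m + j) (by omega) (by omega)

end Pool.Agent.BLP.H8
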