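import Pool.Agent.BLP.StmtsA

/-!
# Squad BLP, row A_STP
-/

namespace Pool.Agent.BLP.H8

/-- STP -/
theorem a_stp (hE : EnaStmt) (hP : PabStmt) (hBel : BelStmt) (hN : PntStmt) : StpStmt := by
  intro b hb m τ hG r n hmr hrn
  have hpa : Pa r (τ (r - 1)) n (τ n) τ := ⟨rfl, rfl, fun j hj _ => hG.1 j (by omega)⟩
  have hle := (hP r n _ _ τ hpa (by omega)).2.2
  have hopt : En b τ r n = L b r (τ (r - 1)) n (τ n) := hG.2 r n hmr (by omega)
  have hopt2 : En b τ (r + 1) n = L b (r + 1) (τ r) n (τ n) := by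
    have h := hG.2 (r + 1) n (by omega) (by omega)
    have h2 : r + 1 - 1 = r := by ring
    rw [h2] at h
    exact h
  have heq : L b r (τ (r - 1)) n (τ n) = b r (τ r) - b r (τ (r - 1)) + L b (r + 1) (τ r) n (τ n) := by
    rw [← hopt, ← hopt2]
    have h1 := (hE b τ r n).1 r (by omega) (by omega)
    rw [h1, (hE b τ r r).2.1]
  refine ⟨?_, heq, ?_⟩
  · intro s' h1 h2
    have h3 := (hBel b hb r n (τ (r - 1)) (τ n) hrn hle).1 s' h1 h2
    rw [heq] at h3
    linarith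
  · intro k u hrk hkn h1 h2
    exact hN b hb r k n (τ (r - 1)) u (τ n) τ hrk hkn hpa hopt h1 h2

end Pool.Agent.BLP.H8
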