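import Pool.Agent.BLP.StmtsA

/-!
# Squad BLP, row A_PNT
-/

namespace Pool.Agent.BLP.H8

/-- PNT -/
theorem a_pnt (hE : EnaStmt) (hP : PabStmt) (hB : BddStmt) (hS : SpkStmt) : PntStmt := by
  intro b hb m k n s u t τ hmk hkn hτ hopt hu1 hu2
  obtain ⟨hmon, hst, _⟩ := hP m n s t τ hτ (by omega)
  have hsu : s ≤ u := (hst (k - 1) (by omega) (by omega)).1.trans hu1
  have hut : u ≤ t := hu2.trans (hst k (by omega) (by omega)).2
  refine le_antisymm ?_ (hS b hb m k n s u t hmk hkn hsu hut)
  -- the first part
  set τ1 : ℤ → ℝ := fun r => if r < k then τ r else u with hτ1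
  set τ2 : ℤ → ℝ := fun r => if r < k then u else τ r with hτ2
  have hp1 : Pa m s k u τ1 := by
    refine ⟨?_, ?_, ?_⟩
    · have h1 : m - 1 < k := by omega
      simp only [hτ1, h1, if_true]
      exact hτ.1
    · simp [hτ1]
    · intro r hr1 hr2
      by_cases h1 : r < k
      · have h2 : r - 1 < k := by omega
        simp only [hτ1, h1, h2, if_true]
        exact hτ.2.2 r hr1 (by omega)
      · have h2 : r - 1 < k := by omega
        have h3 : r = k := by omega
        simp only [hτ1, h1, h2, if_true, if_false]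
        rw [h3]
        exact hu1
  have hp2 : Pa k u n t τ2 := by
    refine ⟨?_, ?_, ?_⟩
    · have h1 : k - 1 < k := by omega
      simp only [hτ2, h1, if_true]
    · have h1 : ¬ (n < k) := by omega
      simp only [hτ2, h1, if_false]
      exact hτ.2.1
    · intro r hr1 hr2
      have h1 : ¬ (r < k) := by omega
      by_cases h2 : r - 1 < k
      · have h3 : r = k := by omega
        simp only [hτ2, h1, h2, if_true, if_false]
        rw [h3]
        exact hu2
      · simp only [hτ2, h1, h2, if_false]
        exact hτ.2.2 r (by omega) hr2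
  have e1 : En b τ1 m k = En b τ m (k - 1) + (b k u - b k (τ (k - 1))) := by
    have h1 := (hE b τ1 m k).1 (k - 1) (by omega) (by omega)
    have h2 : k - 1 + 1 = k := by ring
    rw [h2] at h1
    rw [h1, (hE b τ1 k k).2.1]
    have h3 : En b τ1 m (k - 1) = En b τ m (k - 1) := by
      apply (hE b τ m (k - 1)).2.2
      intro r _ hr2
      have h4 : r < k := by omega
      simp only [hτ1, h4, if_true]
    rw [h3]
    have h5 : τ1 k = u := by simp [hτ1]
    have h6 : τ1 (k - 1) = τ (k - 1) := by
      have h4 : k - 1 < k := by omega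
      simp only [hτ1, h4, if_true]
    rw [h5, h6]
  have e2 : En b τ2 k n = (b k (τ k) - b k u) + En b τ (k + 1) n := by
    have h1 := (hE b τ2 k n).1 k (by omega) (by omega)
    rw [h1, (hE b τ2 k k).2.1]
    have h3 : En b τ2 (k + 1) n = En b τ (k + 1) n := by
      apply (hE b τ (k + 1) n).2.2
      intro r hr1 _
      have h4 : ¬ (r < k) := by omega
      simp only [hτ2, h4, if_false]
    rw [h3]
    have h5 : τ2 k = τ k := by simp [hτ2]
    have h6 : τ2 (k - 1) = u := by
      have h4 : k - 1 < k := by omega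
      simp only [hτ2, h4, if_true]
    rw [h5, h6]
  have e3 : En b τ m n = En b τ m (k - 1) + (b k (τ k) - b k (τ (k - 1))) + En b τ (k + 1) n := by
    have h1 := (hE b τ m n).1 (k - 1) (by omega) (by omega)
    have h2 : k - 1 + 1 = k := by ring
    rw [h2] at h1
    have h3 := (hE b τ k n).1 k (by omega) (by omega)
    rw [h1, h3, (hE b τ k k).2.1]
    ring
  have h7 := (hB b hb m k s u hmk hsu).2.1 τ1 hp1
  have h8 := (hB b hb k n u t hkn hut).2.1 τ2 hp2
  rw [← hopt, e3]
  rw [e1] at h7
  rw [e2] at h8
  linarith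

end Pool.Agent.BLP.H8
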